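import Pool.Agent.H43.CM.Main

/-!
# MP_7fe4b4_ag, project CE : product formula for the Cohen-Macaulay type -- definitions

Everything is 0-based, `Low n`, `lowMat`, `permMat`, `Cell`, `SS`, `VI`, `CR`, `mnr`, `pmnr`, `ble`, `cov`, `asc`, `dsc`, `sr`,
`q0`, `q1`, `xq`, `gam`, `gam'`, `Kap`, `Sne`, `Seq` are those of project CM (namespace `CMT`).

`bl : Fin n → ℕ` is a monotone function (block number of a value).
-/

open MvPolynomial

noncomputable section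

namespace CE

open CMT

variable {n : ℕ} {R : Type*} [CommRing R]

/-! ### block diagonal parts and the sets `PP` -/

/-- the block diagonal part of a matrix -/
def bdg (bl : Fin n → ℕ) (b : Matrix (Fin n) (Fin n) R) : Matrix (Fin n) (Fin n) R :=
  fun i j => if bl i = bl j then b i j else 0

/-- `i ≺ j` for `v`: same block, `i < j` and `v⁻¹ i < v⁻¹ j` -/
def prc (bl : Fin n → ℕ) (v : Equiv.Perm (Fin n)) (i j : Fin n) : Prop :=
  i < j ∧ bl i = bl j ∧ v⁻¹ i < v⁻¹ j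

/-- `S` is down-closed for `≺` -/
def IsId (bl : Fin n → ℕ) (v : Equiv.Perm (Fin n)) (S : Finset (Fin n)) : Prop :=
  ∀ i j, j ∈ S → prc bl v i j → i ∈ S

/-- the pairs `(b v b', b^bl x')` with `x'` supported in `S` and `x' j ≠ 0` for `j ∈ N` -/
def PP (bl : Fin n → ℕ) (v : Equiv.Perm (Fin n)) (S N : Finset (Fin n)) :
    Set (Matrix (Fin n) (Fin n) ℂ × (Fin n → ℂ)) :=
  {p | ∃ (b b' : Matrix (Fin n) (Fin n) ℂ) (x' : Fin n → ℂ), IsUpper b ∧ IsUpper b' ∧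
    (∀ j, j ∉ S → x' j = 0) ∧ (∀ j ∈ N, x' j ≠ 0) ∧
    p.1 = b * permMat ℂ v * b' ∧ p.2 = (bdg bl b).mulVec x'}

/-- the part of `PP` in the chart at `e_y` -/
def EE (bl : Fin n → ℕ) (y v : Equiv.Perm (Fin n)) (S N : Finset (Fin n)) :
    Set ((Low n ⊕ Fin n) → ℂ) :=
  {z | (permMat ℂ y * lowMat (fun e => z (Sum.inl e)), fun j => z (Sum.inr j)) ∈ PP bl v S N}

/-- the parabolic subgroup for `q` -/
def Par (q : ℕ) (hq : q + 1 < n) (p : Matrix (Fin n) (Fin n) ℂ) : Prop :=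
  IsUpper p ∨ ∃ (y : ℂ) (c : Matrix (Fin n) (Fin n) ℂ), IsUpper c ∧
    p = Matrix.transvection (q0 q hq) (q1 q hq) y * permMat ℂ (sr q hq) * c

/-- the pairs `(b v p, b^bl x')`, `v = w s`, `p` in the parabolic subgroup -/
def PP2 (bl : Fin n → ℕ) (q : ℕ) (hq : q + 1 < n) (w : Equiv.Perm (Fin n)) (S N : Finset (Fin n)) :
    Set (Matrix (Fin n) (Fin n) ℂ × (Fin n → ℂ)) :=
  {p | ∃ (b p' : Matrix (Fin n) (Fin n) ℂ) (x' : Fin n → ℂ), IsUpper b ∧ Par q hq p' ∧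
    (∀ j, j ∉ S → x' j = 0) ∧ (∀ j ∈ N, x' j ≠ 0) ∧
    p.1 = b * permMat ℂ (w * sr q hq) * p' ∧ p.2 = (bdg bl b).mulVec x'}

/-- the base of the `P^1`-step -/
def TT (bl : Fin n → ℕ) (y w : Equiv.Perm (Fin n)) (q : ℕ) (hq : q + 1 < n)
    (S N : Finset (Fin n)) : Set ((Kap n q hq ⊕ Fin n) → ℂ) :=
  {z | (permMat ℂ y * lowMat (ext0 fun e => z (Sum.inl e)), fun j => z (Sum.inr j)) ∈
    PP2 bl q hq w S N}

/-- determinant with rows `v 0, ..., v k`, columns `0, ..., k-1` of `M` and, as the last column, the part of `x` in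
the block of `v k` -/
def Fm (bl : Fin n → ℕ) (v : Equiv.Perm (Fin n)) (k : ℕ) (hk : k < n)
    (M : Matrix (Fin n) (Fin n) R) (x : Fin n → R) : R :=
  Matrix.det (Matrix.of fun i j : Fin (k + 1) =>
    if h : j.val < k then M (v (Fin.castLE hk i)) ⟨j.val, h.trans hk⟩
    else if bl (v (Fin.castLE hk i)) = bl (v ⟨k, hk⟩) then x (v (Fin.castLE hk i)) else 0)

/-- the functions `A` and `B` of the type T step -/
def Am (bl : Fin n → ℕ) (q : ℕ) (hq : q + 1 < n) (w : Equiv.Perm (Fin n))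
    (g : Matrix (Fin n) (Fin n) R) (x : Fin n → R) : R :=
  Fm bl w (q + 1) hq (g * permMat R (sr q hq)) x

def Bm (bl : Fin n → ℕ) (q : ℕ) (hq : q + 1 < n) (w : Equiv.Perm (Fin n))
    (g : Matrix (Fin n) (Fin n) R) (x : Fin n → R) : R :=
  - Fm bl w (q + 1) hq g x

/-! ### charts with the extra variables `x` -/

/-- `gam` with the extra variables -/
def gamX {q : ℕ} {hq : q + 1 < n} (y : Option (Kap n q hq ⊕ Fin n) → R) : (Low n ⊕ Fin n) → R :=
  Sum.elim (gam fun o => y (o.map Sum.inl)) (fun j => y (some (Sum.inr j)))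

/-- `gam'` with the extra variables -/
def gamX' {q : ℕ} {hq : q + 1 < n} (y : Option (Kap n q hq ⊕ Fin n) → R) : (Low n ⊕ Fin n) → R :=
  Sum.elim (gam' fun o => y (o.map Sum.inl)) (fun j => y (some (Sum.inr j)))

/-- the functions `a, b` on the base -/
def aX (y w : Equiv.Perm (Fin n)) (q : ℕ) (hq : q + 1 < n) :
    MvPolynomial (Kap n q hq ⊕ Fin n) ℂ := rename Sum.inl (aP y w q hq)

def bX (y w : Equiv.Perm (Fin n)) (q : ℕ) (hq : q + 1 < n) :
    MvPolynomial (Kap n q hq ⊕ Fin n) ℂ := rename Sum.inl (bP y w q hq)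

/-- the functions `A, B` on the base -/
def AX (bl : Fin n → ℕ) (y w : Equiv.Perm (Fin n)) (q : ℕ) (hq : q + 1 < n) :
    MvPolynomial (Kap n q hq ⊕ Fin n) ℂ :=
  Am bl q hq w (permMat _ y * lowMat (ext0 fun i : Kap n q hq =>
    (X (Sum.inl i) : MvPolynomial (Kap n q hq ⊕ Fin n) ℂ))) (fun j => X (Sum.inr j))

def BX (bl : Fin n → ℕ) (y w : Equiv.Perm (Fin n)) (q : ℕ) (hq : q + 1 < n) :
    MvPolynomial (Kap n q hq ⊕ Fin n) ℂ :=
  Bm bl q hq w (permMat _ y * lowMat (ext0 fun i : Kap n q hq =>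
    (X (Sum.inl i) : MvPolynomial (Kap n q hq ⊕ Fin n) ℂ))) (fun j => X (Sum.inr j))

/-- `CR S` is a normal domain -/
def NormalCR {ι : Type} (S : Set (ι → ℂ)) : Prop :=
  IsDomain (CR S) ∧ IsIntegrallyClosed (CR S)

/-! ### length additive products and the sets `ZM` -/

/-- `u` and `w⁻¹` have no common inversion -/
def AD (u w : Equiv.Perm (Fin n)) : Prop := ∀ i j, i < j → u j < u i → w⁻¹ i < w⁻¹ j

/-- the block number of `j`: the number of centres `c ≤ j` -/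
def bk (I : Finset (Fin n)) (j : Fin n) : ℕ := (I.filter fun c => c ≤ j).card

/-- `u` preserves `{j : j < c}` for every centre `c` -/
def Pres (I : Finset (Fin n)) (u : Equiv.Perm (Fin n)) : Prop := ∀ c ∈ I, ∀ j, j < c → u j < c

/-- the pairs `(g1 g2, g1^bl l)`, `g1 ∈ B u B`, `g2 ∈ B w B`, `l` supported in `I` -/
def ZM (I : Finset (Fin n)) (u w : Equiv.Perm (Fin n)) :
    Set (Matrix (Fin n) (Fin n) ℂ × (Fin n → ℂ)) :=
  {p | ∃ g1 ∈ Cell u, ∃ g2 ∈ Cell w, ∃ l : Fin n → ℂ, (∀ j, j ∉ I → l j = 0) ∧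
    p.1 = g1 * g2 ∧ p.2 = (bdg (bk I) g1).mulVec l}

/-- `ZM` in the chart at the identity -/
def Zc (I : Finset (Fin n)) (u w : Equiv.Perm (Fin n)) : Set ((Low n ⊕ Fin n) → ℂ) :=
  {z | (lowMat (fun e => z (Sum.inl e)), fun j => z (Sum.inr j)) ∈ ZM I u w}

/-- the union of all `ZM` for smaller permutations -/
def ZZ (I : Finset (Fin n)) (u w : Equiv.Perm (Fin n)) :
    Set (Matrix (Fin n) (Fin n) ℂ × (Fin n → ℂ)) :=
  {p | ∃ u1 w1, ble u1 u ∧ ble w1 w ∧ p ∈ ZM I u1 w1}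

/-- the set whose coordinate ring is the algebra `𝒮` -/
abbrev E1 (I : Finset (Fin n)) (u w : Equiv.Perm (Fin n)) : Set ((Low n ⊕ Fin n) → ℂ) :=
  EE (bk I) 1 (u * w) (I.image u) ∅

/-- functions of `z` as functions of `(z, x)` -/
def inX (f : MvPolynomial (Low n) ℂ) : MvPolynomial (Low n ⊕ Fin n) ℂ := rename Sum.inl f

/-- the coordinate `x_j` -/
def xx (j : Fin n) : MvPolynomial (Low n ⊕ Fin n) ℂ := X (Sum.inr j)

/-- the one-step smaller pairs -/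
def Fac1 (u w : Equiv.Perm (Fin n)) (p : Equiv.Perm (Fin n) × Equiv.Perm (Fin n)) : Prop :=
  (cov p.1 u ∧ p.2 = w) ∨ (p.1 = u ∧ cov p.2 w)

/-- all one-step smaller pairs are length additive too (no exceptional components) -/
def NE (u w : Equiv.Perm (Fin n)) : Prop := AD u w ∧ ∀ p, Fac1 u w p → AD p.1 p.2

/-- the ideal of a divisor -/
def QQ (I : Finset (Fin n)) (u w : Equiv.Perm (Fin n))
    (p : Equiv.Perm (Fin n) × Equiv.Perm (Fin n)) : Ideal (CR (E1 I u w)) :=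
  (VI (E1 I p.1 p.2)).map (Ideal.Quotient.mk (VI (E1 I u w)))

/-- the minor `Δ_{v,k}` in `𝒮` -/
def dS (I : Finset (Fin n)) (u w : Equiv.Perm (Fin n)) (k : Fin n) : CR (E1 I u w) :=
  Ideal.Quotient.mk _ (inX (pmnr 1 (u * w) k.val k.isLt.le))

/-- the minor `Δ_{v,k}` in `R` -/
def dR (v : Equiv.Perm (Fin n)) (k : Fin n) : CR (SS 1 v) :=
  Ideal.Quotient.mk _ (pmnr 1 v k.val k.isLt.le)

/-! ### data for the product formula -/

/-- `u, w`, the centres `I`, the multiplicities `ν` and the function `H` on positions -/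
structure Setup (u w : Equiv.Perm (Fin n)) (I : Finset (Fin n)) (ν : Fin n → ℕ)
    (H : Fin n → ℤ) : Prop where
  ne : NE u w
  pres : Pres I u
  up : ∀ c ∈ I, c < u c
  hH : ∀ a b, Hasse (u * w) a b → H b - H a =
    1 + ∑ c ∈ I, if (u * w) a = u c ∧ c ≤ (u * w) b then (ν c : ℤ) else 0

/-- `max {y p : p ≤ k}` -/
def mx (y : Equiv.Perm (Fin n)) (k : Fin n) : ℕ :=
  (Finset.univ.filter fun p : Fin n => p ≤ k).sup fun p => (y p).val

/-- the exponent vectors with support in the intervals `[c, top c]` and degree `ν c` on `[c, top c]` -/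
def Mon (I : Finset (Fin n)) (top : Fin n → ℕ) (ν : Fin n → ℕ) : Finset (Fin n → ℕ) :=
  @Finset.filter _ (fun m : Fin n → ℕ => (∀ j, m j ≠ 0 → ∃ c ∈ I, c ≤ j ∧ j.val ≤ top c) ∧
    ∀ c ∈ I, ∑ j ∈ Finset.univ.filter (fun j : Fin n => c ≤ j ∧ j.val ≤ top c), m j = ν c)
    (Classical.decPred _) (Fintype.piFinset fun _ : Fin n => Finset.range (∑ c ∈ I, ν c + 1))

/-- the function `p_{c,j}`: rows `v 0, ..., v (k_c - 1), j`, `v = u w`, `k_c = w⁻¹ c` -/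
def pcj (u w : Equiv.Perm (Fin n)) (c j : Fin n) : MvPolynomial (Low n) ℂ :=
  pmnr 1 (Equiv.swap j (u c) * (u * w)) ((w⁻¹ c).val + 1) (w⁻¹ c).isLt

theorem E1_fst {I : Finset (Fin n)} {u w : Equiv.Perm (Fin n)} {z : (Low n ⊕ Fin n) → ℂ}
    (hz : z ∈ E1 I u w) : (fun e => z (Sum.inl e)) ∈ SS 1 (u * w) := by
  obtain ⟨b, b', x', hb, hb', -, -, h, -⟩ := hz
  exact ⟨b, b', hb, hb', h⟩

theorem inX_mem {I : Finset (Fin n)} {u w : Equiv.Perm (Fin n)} {f : MvPolynomial (Low n) ℂ}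
    (hf : f ∈ VI (SS 1 (u * w))) : inX f ∈ VI (E1 I u w) := by
  rw [mem_vanishingIdeal_iff] at hf ⊢
  intro z hz
  rw [inX, aeval_rename]
  exact hf _ (E1_fst hz)

/-- the ring homomorphism `R → 𝒮` -/
def psi (I : Finset (Fin n)) (u w : Equiv.Perm (Fin n)) :
    CR (SS 1 (u * w)) →+* CR (E1 I u w) :=
  Ideal.quotientMap (VI (E1 I u w)) (rename Sum.inl :
    MvPolynomial (Low n) ℂ →ₐ[ℂ] MvPolynomial (Low n ⊕ Fin n) ℂ).toRingHom
    (fun _ hf => inX_mem hf)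

theorem psi_mk (I : Finset (Fin n)) (u w : Equiv.Perm (Fin n)) (f : MvPolynomial (Low n) ℂ) :
    psi I u w (Ideal.Quotient.mk _ f) = Ideal.Quotient.mk _ (inX f) := rfl

/-- `Δ_{v, k_c + 1}` in `R`, `k_c = w⁻¹ c` -/
def dc (u w : Equiv.Perm (Fin n)) (c : Fin n) : CR (SS 1 (u * w)) :=
  Ideal.Quotient.mk _ (pmnr 1 (u * w) ((w⁻¹ c).val + 1) (w⁻¹ c).isLt)

/-- `∏_c x_{s_c}^{ν_c}` in `𝒮` -/
def Xn (I : Finset (Fin n)) (u w : Equiv.Perm (Fin n)) (ν : Fin n → ℕ) : CR (E1 I u w) :=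
  ∏ c ∈ I, Ideal.Quotient.mk _ (xx (u c)) ^ ν c

/-- the monomial `x^m` in `𝒮` -/
def xm (I : Finset (Fin n)) (u w : Equiv.Perm (Fin n)) (m : Fin n → ℕ) : CR (E1 I u w) :=
  ∏ j, Ideal.Quotient.mk _ (xx j) ^ m j

/-- `∏_k Δ_k^{e_k^+}` and `∏_k Δ_k^{e_k^-}` in `𝒮`, `e_k = H k - H (k-1)` -/
def dpS (I : Finset (Fin n)) (u w : Equiv.Perm (Fin n)) (H : Fin n → ℤ) : CR (E1 I u w) :=
  ∏ k, dS I u w k ^ (ex H k).toNat

def dmS (I : Finset (Fin n)) (u w : Equiv.Perm (Fin n)) (H : Fin n → ℤ) : CR (E1 I u w) :=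
  ∏ k, dS I u w k ^ (-ex H k).toNat

/-- `f ∈ R` corresponds to `r ∈ 𝒮` -/
def IsF (I : Finset (Fin n)) (u w : Equiv.Perm (Fin n)) (ν : Fin n → ℕ) (H : Fin n → ℤ)
    (f : CR (SS 1 (u * w))) (r : CR (E1 I u w)) : Prop :=
  psi I u w f * Xn I u w ν * dmS I u w H = dpS I u w H * r

/-! ### combinatorial hypotheses of the theorem -/

/-- some `j ≤ k` has `k < y j` -/
def EX (y : Equiv.Perm (Fin n)) (k : Fin n) : Prop := ∃ j, j ≤ k ∧ k < y j

/-- the set `J` -/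
def Jset (u w : Equiv.Perm (Fin n)) : Finset (Fin n) :=
  @Finset.filter _ (fun k => EX u k ∧ EX w⁻¹ k) (Classical.decPred _) Finset.univ

/-- `ν_k = N(k) - N(k+1)` -/
def nuF (N : Fin n → ℤ) (k : Fin n) : ℕ :=
  if hk : k.val + 1 < n then (N k - N ⟨k.val + 1, hk⟩).toNat else 0

/-- the set of `k` with `N(k+1) < N(k)` -/
def IN (N : Fin n → ℤ) : Finset (Fin n) := Finset.univ.filter fun k => 0 < nuF N k

/-- `d_k` -/
def dF (u w : Equiv.Perm (Fin n)) (k : Fin n) : ℕ := min (u k).val (mx w⁻¹ k) - k.val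

end CE
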