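import Pool.Agent.H43.CE.C.Fin
import Pool.Agent.H43.CE.K.Setup
import Pool.Agent.H43.CE.K.W0

/-!
# CE : the product formula (final assembly)
-/

open MvPolynomial

noncomputable section

namespace CE

open CMT

variable {n : ℕ}

/-- the value of the formula -/
def prodF (u w : Equiv.Perm (Fin n)) (N : Fin n → ℤ) : ℕ :=
  ∏ k ∈ Jset u w, (nuF N k + dF u w k).choose (dF u w k)

/-- the hypotheses of the theorem -/
structure Hyp (u w : Equiv.Perm (Fin n)) (h g : Fin n → ℤ) : Prop where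
  ad : AD u w
  hu : RankFun u h
  hw : RankFun w⁻¹ g
  hJ1 : ∀ (k : Fin n) (hk : k.val + 1 < n), EX u k → EX w⁻¹ k →
      h ⟨k.val + 1, hk⟩ + g ⟨k.val + 1, hk⟩ ≤ h k + g k
  hJ2 : ∀ (k : Fin n) (hk : k.val + 1 < n), EX u k → EX w⁻¹ k →
      h ⟨k.val + 1, hk⟩ + g ⟨k.val + 1, hk⟩ < h k + g k → ∀ j, j < k → u j < k

theorem finrank_hyp {u w : Equiv.Perm (Fin n)} {h g : Fin n → ℤ} (H : Hyp u w h g) :
    Module.finrank ℂ (bd 1 (u * w) ⧸
      (orig (SS 1 (u * w)) • (⊤ : Submodule (CR (SS 1 (u * w))) (bd 1 (u * w))))) =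
      prodF u w (fun i => h i + g i) := by
  obtain ⟨I, ν, H', hs, he⟩ := exists_setup H.ad H.hu H.hw H.hJ1 H.hJ2
  rw [finrank_prod hs, he, prodF]

theorem hasType_prod {u w : Equiv.Perm (Fin n)} {h g : Fin n → ℤ} (H : Hyp u w h g) :
    HasType (SchubertLocalRing (u * w)) (len (u * w)) (prodF u w (fun i => h i + g i)) := by
  have := hasType_bd (u * w)
  rwa [finrank_hyp H] at this

theorem hasType_prod_inv {u w : Equiv.Perm (Fin n)} {h g : Fin n → ℤ} (H : Hyp u w h g) :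
    HasType (SchubertLocalRing (u * w)⁻¹) (len (u * w)⁻¹) (prodF u w (fun i => h i + g i)) := by
  have := hasType_bd (u * w)⁻¹
  rwa [finrank_bd_inv, finrank_hyp H] at this

theorem hasType_prod_rc {u w : Equiv.Perm (Fin n)} {h g : Fin n → ℤ} (H : Hyp u w h g) :
    HasType (SchubertLocalRing (rc (u * w))) (len (rc (u * w))) (prodF u w (fun i => h i + g i)) := by
  have := hasType_bd (rc (u * w))
  rwa [finrank_bd_rc, finrank_hyp H] at this

theorem hasType_prod_tau {u w : Equiv.Perm (Fin n)} {h g : Fin n → ℤ} (H : Hyp u w h g) :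
    HasType (SchubertLocalRing (rc (u * w)⁻¹)) (len (rc (u * w)⁻¹))
      (prodF u w (fun i => h i + g i)) := by
  have := hasType_bd (rc (u * w)⁻¹)
  rwa [finrank_bd_tau, finrank_hyp H] at this

end CE
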